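import Pool.Agent.KS6_37.RS.Gam

/-!
# The finite quotients
-/

set_option autoImplicit false
set_option linter.unusedSimpArgs false

namespace Pool.Agent.KS6_37.RS

open scoped commutatorElement

noncomputable section

/-- reduction of the coefficients modulo `p ^ n` at `p`, and of the index modulo `2 ^ m` -/
def red (p : Nat.Primes) (n m : ℕ) : A →+ (ZMod (2 ^ m) →₀ (Fin 3 → ZMod ((p : ℕ) ^ n))) :=
  (Finsupp.mapDomain.addMonoidHom (Int.cast : ℤ → ZMod (2 ^ m))).comp
    (Finsupp.mapRange.addMonoidHom ((phi p n).toAddMonoidHom.compLeft (Fin 3)))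

lemma red_single (p : Nat.Primes) (n m : ℕ) (j : ℤ) (v : Fin 3 → R) :
    red p n m (Finsupp.single j v) = Finsupp.single (j : ZMod (2 ^ m)) (fun i => phi p n (v i)) := by
  simp only [red, AddMonoidHom.comp_apply, Finsupp.mapRange.addMonoidHom_apply,
    Finsupp.mapRange_single, Finsupp.mapDomain.addMonoidHom_apply, Finsupp.mapDomain_single]
  rfl

lemma red_P (p : Nat.Primes) (n m : ℕ) (i k : Fin 3) (h : i ≠ k) (c : ℤ → R)
    (c' : ZMod (2 ^ m) → ZMod ((p : ℕ) ^ n)) (hc : ∀ j : ℤ, phi p n (c j) = c' (j : ZMod (2 ^ m)))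
    (a : A) : red p n m (P i k h c a) = P i k h c' (red p n m a) := by
  have h1 : (red p n m).comp (P i k h c).toLinearMap.toAddMonoidHom =
      (P i k h c').toLinearMap.toAddMonoidHom.comp (red p n m) := by
    refine Finsupp.addHom_ext fun j v => ?_
    show red p n m (P i k h c (Finsupp.single j v)) = P i k h c' (red p n m (Finsupp.single j v))
    rw [P_single, map_add, red_single, red_single, P_single]
    congr 2
    funext l
    rw [Pi.single_apply, Pi.single_apply, ← hc]
    split_ifs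
    · rw [map_mul]
    · rw [map_zero]
  exact congrArg (fun f => f a) h1

lemma red_T (p : Nat.Primes) (n m : ℕ) (s : ℤ) (a : A) :
    red p n m (Tn (S := R) s a) =
      Tn (S := ZMod ((p : ℕ) ^ n)) (s : ZMod (2 ^ m)) (red p n m a) := by
  have h1 : (red p n m).comp (Tn (S := R) s).toLinearMap.toAddMonoidHom =
      (Tn (S := ZMod ((p : ℕ) ^ n)) (s : ZMod (2 ^ m))).toLinearMap.toAddMonoidHom.comp
        (red p n m) := by
    refine Finsupp.addHom_ext fun j v => ?_
    show red p n m (Tn (S := R) s (Finsupp.single j v)) =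
      Tn (S := ZMod ((p : ℕ) ^ n)) (s : ZMod (2 ^ m)) (red p n m (Finsupp.single j v))
    rw [Tn_single, red_single, red_single, Tn_single]
    congr 1
    push_cast
    rfl
  exact congrArg (fun f => f a) h1

lemma phi_u_zero (p : Nat.Primes) (n m : ℕ) (h : n ≤ m) (j : ℤ) (hj : (2 : ℤ) ^ m ∣ j) :
    phi p n (u j) = 0 := by
  rw [u]
  split_ifs with h0
  · rw [map_zero]
  · apply phi_U
    have := (padicValInt_dvd_iff (p := 2) m j).1 (by exact_mod_cast hj)
    rcases this with h1 | h1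
    · exact absurd h1 h0
    · omega

lemma padic_eq (m : ℕ) (j j' : ℤ) (hd : (2 : ℤ) ^ m ∣ j - j') (hj : ¬ (2 : ℤ) ^ m ∣ j) :
    padicValInt 2 j ≤ padicValInt 2 j' := by
  have hj' : ¬ (2 : ℤ) ^ m ∣ j' := fun h => hj (by
    have := dvd_add hd h
    rwa [sub_add_cancel] at this)
  have h0 : j ≠ 0 := by
    rintro rfl
    exact hj (dvd_zero _)
  have h0' : j' ≠ 0 := by
    rintro rfl
    exact hj' (dvd_zero _)
  have hv : padicValInt 2 j < m := by
    by_contra hc
    push Not at hc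
    exact hj (by
      have := (padicValInt_dvd_iff (p := 2) m j).2 (Or.inr hc)
      exact_mod_cast this)
  have h1 : (2 : ℤ) ^ (padicValInt 2 j) ∣ j := by
    have := (padicValInt_dvd_iff (p := 2) (padicValInt 2 j) j).2 (Or.inr le_rfl)
    exact_mod_cast this
  have h2 : (2 : ℤ) ^ (padicValInt 2 j) ∣ j' := by
    have h3 : (2 : ℤ) ^ (padicValInt 2 j) ∣ j - j' := (pow_dvd_pow _ hv.le).trans hd
    have := dvd_sub h1 h3
    rwa [sub_sub_cancel] at this
  rcases (padicValInt_dvd_iff (p := 2) (padicValInt 2 j) j').1 (by exact_mod_cast h2) with h | h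
  · exact absurd h h0'
  · exact h

lemma phi_u_periodic (p : Nat.Primes) (n m : ℕ) (h : n ≤ m) (j j' : ℤ)
    (hd : (2 : ℤ) ^ m ∣ j - j') : phi p n (u j) = phi p n (u j') := by
  by_cases hj : (2 : ℤ) ^ m ∣ j
  · have hj' : (2 : ℤ) ^ m ∣ j' := by
      have := dvd_sub hj hd
      rwa [sub_sub_cancel] at this
    rw [phi_u_zero p n m h j hj, phi_u_zero p n m h j' hj']
  · have hj' : ¬ (2 : ℤ) ^ m ∣ j' := fun h => hj (by
      have := dvd_add hd h
      rwa [sub_add_cancel] at this)
    have e := le_antisymm (padic_eq m j j' hd hj)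
      (padic_eq m j' j (by rw [← neg_sub]; exact (dvd_neg).2 hd) hj')
    have h0 : j ≠ 0 := by
      rintro rfl
      exact hj (dvd_zero _)
    have h0' : j' ≠ 0 := by
      rintro rfl
      exact hj' (dvd_zero _)
    rw [u, u, if_neg h0, if_neg h0', e]

lemma phi_u (p : Nat.Primes) (n m : ℕ) (h : n ≤ m) (j : ℤ) :
    phi p n (u j) = phi p n (u (((j : ZMod (2 ^ m)).val : ℕ) : ℤ)) := by
  have : NeZero (2 ^ m) := ⟨by positivity⟩
  apply phi_u_periodic p n m h
  rw [ZMod.val_intCast]
  have := Int.mul_ediv_add_emod j ((2 ^ m : ℕ) : ℤ)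
  refine ⟨j / ((2 ^ m : ℕ) : ℤ), ?_⟩
  push_cast at this ⊢
  linarith

lemma red_lin (p : Nat.Primes) (n m : ℕ) (h : n ≤ m) (g : Af) (hg : g ∈ Γ) :
    ∀ a, red p n m a = 0 ↔ red p n m (g.linear a) = 0 := by
  have hP : ∀ (i k : Fin 3) (h : i ≠ k) (c : ℤ → R) (c' : ZMod (2 ^ m) → ZMod ((p : ℕ) ^ n))
      (hc : ∀ j : ℤ, phi p n (c j) = c' (j : ZMod (2 ^ m))) (a : A),
      red p n m a = 0 ↔ red p n m ((la (P i k h c)).linear a) = 0 := by
    intro i k h c c' hc a
    rw [la_linear, red_P p n m i k h c c' hc, LinearEquiv.map_eq_zero_iff]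
  induction hg using Subgroup.closure_induction with
  | mem g hg =>
    rcases hg with (rfl | rfl | rfl) | ⟨q, rfl⟩
    · intro a
      rw [tr_linear]
    · intro a
      rw [la_linear, red_T, LinearEquiv.map_eq_zero_iff]
    · refine hP _ _ _ _ (fun z => phi p n x * phi p n (u ((z.val : ℕ) : ℤ))) fun j => ?_
      rw [map_mul, phi_u p n m h]
    · exact hP _ _ _ _ (fun z => phi p n x) fun j => rfl
  | one => exact fun a => Iff.rfl
  | mul g h _ _ ihg ihh =>
    intro a
    rw [lin_mul, ← ihg, ← ihh]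
  | inv g _ ih =>
    intro a
    have := ih (g⁻¹.linear a)
    rw [lin_inv_self] at this
    exact this.symm

/-- the elements acting trivially on the reduction -/
def Mk (p : Nat.Primes) (n m : ℕ) : Subgroup Γ where
  carrier := {g | ∀ a, red p n m (g.1 a) = red p n m a}
  one_mem' := fun a => rfl
  mul_mem' := fun {g h} hg hh a => (hg (h.1 a)).trans (hh a)
  inv_mem' := fun {g} hg a => by
    have := hg (g⁻¹.1 a)
    rw [show g.1 (g⁻¹.1 a) = a from inv_apply_self g.1 a] at this
    exact this.symm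

lemma red_aff (p : Nat.Primes) (n m : ℕ) (h : n ≤ m) (g : Γ) (a b : A)
    (hab : red p n m a = red p n m b) : red p n m (g.1 a) = red p n m (g.1 b) := by
  have h1 : g.1 a = g.1.linear (a - b) + g.1 b := by
    rw [← aff, sub_add_cancel]
  rw [h1, map_add, (red_lin p n m h g.1 g.2 (a - b)).1 (by rw [map_sub, hab, sub_self]), zero_add]

lemma red_aff' (p : Nat.Primes) (n m : ℕ) (h : n ≤ m) (g : Γ) (a b : A)
    (hab : red p n m (g.1 a) = red p n m (g.1 b)) : red p n m a = red p n m b := by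
  have := red_aff p n m h g⁻¹ _ _ hab
  rwa [show g⁻¹.1 (g.1 a) = a from self_inv_apply g.1 a,
    show g⁻¹.1 (g.1 b) = b from self_inv_apply g.1 b] at this

lemma Mk_normal (p : Nat.Primes) (n m : ℕ) (h : n ≤ m) : (Mk p n m).Normal := by
  refine ⟨fun g hg k a => ?_⟩
  show red p n m (k.1 (g.1 (k⁻¹.1 a))) = red p n m a
  rw [red_aff p n m h k _ _ (hg (k⁻¹.1 a))]
  rw [show k.1 (k⁻¹.1 a) = a from inv_apply_self k.1 a]

lemma Mk_finite (p : Nat.Primes) (n m : ℕ) (h : n ≤ m) : Finite (Γ ⧸ Mk p n m) := by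
  have : NeZero ((p : ℕ) ^ n) := ⟨pow_ne_zero _ p.2.ne_zero⟩
  have : NeZero (2 ^ m) := ⟨by positivity⟩
  have hB : Finite (ZMod (2 ^ m) →₀ (Fin 3 → ZMod ((p : ℕ) ^ n))) := inferInstance
  refine Finite.of_injective
    (β := (ZMod (2 ^ m) →₀ (Fin 3 → ZMod ((p : ℕ) ^ n))) →
      (ZMod (2 ^ m) →₀ (Fin 3 → ZMod ((p : ℕ) ^ n))))
    (fun q b => red p n m ((Quotient.out q : Γ).1 (Function.invFun (red p n m) b))) ?_
  intro q q' hq
  have h1 : ∀ a, red p n m ((Quotient.out q : Γ).1 a) = red p n m ((Quotient.out q' : Γ).1 a) := by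
    intro a
    have h2 := congrFun hq (red p n m a)
    have h3 : red p n m (Function.invFun (red p n m) (red p n m a)) = red p n m a :=
      Function.invFun_eq ⟨a, rfl⟩
    rw [red_aff p n m h _ a _ h3.symm, red_aff p n m h (Quotient.out q') a _ h3.symm]
    exact h2
  rw [← QuotientGroup.out_eq' q, ← QuotientGroup.out_eq' q', QuotientGroup.eq]
  intro a
  refine red_aff' p n m h (Quotient.out q : Γ) _ _ ?_
  rw [h1 a]
  congr 1
  exact inv_apply_self (Quotient.out q : Γ).1 _

/-- the group is residually finite -/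
theorem residually_finite (g : Γ) (hg : g ≠ 1) :
    ∃ (M : Subgroup Γ) (_ : M.Normal), g ∉ M ∧ Finite (Γ ⧸ M) := by
  obtain ⟨a, ha⟩ := exists_ne g hg
  set b := g.1 a - a with hb
  have h1 : ∃ j l, b j l ≠ 0 := by
    by_contra hc
    push Not at hc
    apply ha
    ext j l
    rw [hc j l]
    rfl
  obtain ⟨j, l, hjl⟩ := h1
  obtain ⟨p, n, hp⟩ := sep _ hjl
  let K := ∑ s ∈ b.support, s.natAbs
  let m := n + 2 * K + 1
  have hnm : n ≤ m := by omega
  have hj : j ∈ b.support := by
    rw [Finsupp.mem_support_iff]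
    intro h
    rw [h] at hjl
    exact hjl rfl
  have hinj : Set.InjOn (Int.cast : ℤ → ZMod (2 ^ m)) (b.support : Set ℤ) := by
    intro s hs t ht hst
    have h2 : s.natAbs ≤ K := Finset.single_le_sum (f := fun s : ℤ => s.natAbs)
      (fun _ _ => Nat.zero_le _) hs
    have h3 : t.natAbs ≤ K := Finset.single_le_sum (f := fun s : ℤ => s.natAbs)
      (fun _ _ => Nat.zero_le _) ht
    have h4 : ((2 ^ m : ℕ) : ℤ) ∣ s - t := (ZMod.intCast_eq_intCast_iff_dvd_sub _ _ _).1 hst.symm
    have h5 : 2 * K < 2 ^ m := by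
      calc 2 * K < m := by omega
        _ < 2 ^ m := Nat.lt_two_pow_self
    have h6 : s - t = 0 := by
      apply Int.eq_zero_of_abs_lt_dvd h4
      have h7 : |s - t| ≤ 2 * (K : ℤ) := by
        have h8 := abs_sub s t
        rw [Int.abs_eq_natAbs s, Int.abs_eq_natAbs t] at h8
        have h9 : ((s.natAbs : ℕ) : ℤ) ≤ K := by exact_mod_cast h2
        have h10 : ((t.natAbs : ℕ) : ℤ) ≤ K := by exact_mod_cast h3
        linarith
      have h11 : (2 * (K : ℤ)) < ((2 ^ m : ℕ) : ℤ) := by exact_mod_cast h5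
      linarith
    linarith
  refine ⟨Mk p n m, Mk_normal p n m hnm, fun hM => hp ?_, Mk_finite p n m hnm⟩
  have h2 : red p n m b = 0 := by
    rw [hb, map_sub, hM a, sub_self]
  have h3 : red p n m b (j : ZMod (2 ^ m)) l = phi p n (b j l) := by
    have h4 := Finsupp.mapDomain_apply' (b.support : Set ℤ)
      (Finsupp.mapRange.addMonoidHom ((phi p n).toAddMonoidHom.compLeft (Fin 3)) b)
      (by
        intro s hs
        exact Finsupp.support_mapRange (hf := map_zero _) hs) hinj hj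
    exact congrFun h4 l
  rw [← h3, h2]
  rfl

end

end Pool.Agent.KS6_37.RS
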