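import Pool.Agent.KS6_37.RS.Grp

/-!
# The group, its generators, its derived series
-/

set_option autoImplicit false
set_option linter.unusedSimpArgs false

namespace Pool.Agent.KS6_37.RS

open scoped commutatorElement

noncomputable section

/-- the function with values `U 1, U 2, ...` -/
def u (j : ℤ) : R := if j = 0 then 0 else U (padicValInt 2 j + 1)

lemma u_pow (d : ℕ) (hd : 0 < d) : u (2 ^ (d - 1)) = U d := by
  have h1 : ((2 : ℤ) ^ (d - 1)) ≠ 0 := by positivity
  rw [u, if_neg h1]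
  have h2 : padicValInt 2 ((2 : ℤ) ^ (d - 1)) = d - 1 := by
    rw [padicValInt]
    have : ((2 : ℤ) ^ (d - 1)).natAbs = 2 ^ (d - 1) := by
      rw [Int.natAbs_pow]
      rfl
    rw [this]
    exact padicValNat.prime_pow _
  rw [h2, Nat.sub_add_cancel hd]

/-- the generators -/
def gens : Set Af :=
  {tr (Finsupp.single 0 (Pi.single 0 1)), la (Tn (S := R) 1),
    la (P 1 0 (by decide) (fun j => x * u j))} ∪
  Set.range (fun q : {q : Fin 3 × Fin 3 // q.1 ≠ q.2} => la (P q.1.1 q.1.2 q.2 (fun _ => x)))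

/-- the group -/
def Γ : Subgroup Af := Subgroup.closure gens

lemma gens_finite : gens.Finite := by
  refine Set.Finite.union ?_ (Set.finite_range _)
  exact Set.toFinite _

lemma Γ_fg : Group.FG Γ := (Group.fg_iff_subgroup_fg Γ).2 ⟨gens_finite.toFinset, by simp [Γ]⟩

lemma tr_gen : tr (Finsupp.single 0 (Pi.single 0 1)) ∈ Γ :=
  Subgroup.subset_closure (Or.inl (Or.inl rfl))

lemma Tn_gen : la (Tn (S := R) 1) ∈ Γ :=
  Subgroup.subset_closure (Or.inl (Or.inr (Or.inl rfl)))

lemma Pu_gen : la (P 1 0 (by decide) (fun j => x * u j)) ∈ Γ :=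
  Subgroup.subset_closure (Or.inl (Or.inr (Or.inr rfl)))

lemma P_gen (i k : Fin 3) (h : i ≠ k) : la (P i k h (fun _ => x)) ∈ Γ :=
  Subgroup.subset_closure (Or.inr ⟨⟨(i, k), h⟩, rfl⟩)

lemma P_sub_mem (i k : Fin 3) (h : i ≠ k) (c : ℤ → R) (a : A) :
    P i k h (fun j => x * c j) a - a ∈ I 1 := by
  refine mem_I.2 ⟨nil i k c a, ?_⟩
  rw [P_apply, add_sub_cancel_left]
  ext j l
  have h1 : (x ^ 1 • nil i k c a) j l = x ^ 1 * (nil i k c a j l) := rfl
  rw [h1, nil_apply, nil_apply, Pi.single_apply, Pi.single_apply, pow_one]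
  split_ifs
  · ring_nf
  · simp

lemma Γ_le : Γ ≤ K0 := by
  rw [Γ, Subgroup.closure_le]
  have hP : ∀ (i k : Fin 3) (h : i ≠ k) (c : ℤ → R), la (P i k h (fun j => x * c j)) ∈ K0 := by
    intro i k h c
    refine ⟨0, fun a => ?_⟩
    rw [Tn_zero]
    exact P_sub_mem i k h c a
  rintro g ((rfl | rfl | rfl) | ⟨q, rfl⟩)
  · refine ⟨0, fun a => ?_⟩
    rw [Tn_zero, tr_linear, sub_self]
    exact zero_mem _
  · refine ⟨1, fun a => ?_⟩
    rw [la_linear, sub_self]
    exact zero_mem _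
  · exact hP _ _ _ _
  · have h1 := hP q.1.1 q.1.2 q.2 (fun _ => 1)
    have h2 : la (P q.1.1 q.1.2 q.2 (fun _ => x)) ∈ K0 := by
      simpa only [mul_one] using h1
    exact h2

lemma der1 : derivedSeries Γ 1 ≤ K1.comap Γ.subtype := by
  rw [derivedSeries_succ, Subgroup.commutator_le]
  intro g _ h _
  exact K0_comm g.1 h.1 (Γ_le g.2) (Γ_le h.2)

lemma der2 : derivedSeries Γ 2 ≤ (N 1).comap Γ.subtype := by
  rw [derivedSeries_succ, Subgroup.commutator_le]
  intro g hg h hh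
  exact K1_comm g.1 h.1 (der1 hg) (der1 hh)

lemma N_anti {k l : ℕ} (h : k ≤ l) : N l ≤ N k := fun _ hg a => I_anti h (hg a)

lemma der (k : ℕ) : derivedSeries Γ (k + 2) ≤ (N (k + 1)).comap Γ.subtype := by
  induction k with
  | zero => exact der2
  | succ k ih =>
    rw [show k + 1 + 2 = (k + 2) + 1 from rfl, derivedSeries_succ, Subgroup.commutator_le]
    intro g hg h hh
    exact N_anti (by omega) (N_comm g.1 h.1 (ih hg) (ih hh))

lemma exists_ne (g : Γ) (hg : g ≠ 1) : ∃ a, g.1 a - a ≠ 0 := by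
  by_contra hc
  push Not at hc
  apply hg
  apply Subtype.ext
  ext1 a
  exact sub_eq_zero.1 (hc a)

lemma solvable_quotient {G : Type} [Group G] (n : ℕ) : Group.IsSolvable (G ⧸ derivedSeries G n) := by
  refine ⟨⟨n, ?_⟩⟩
  have h1 := map_derivedSeries_eq (QuotientGroup.mk'_surjective (derivedSeries G n)) n
  rw [← h1, Subgroup.map_eq_bot_iff, QuotientGroup.ker_mk']

/-- the group is residually soluble -/
theorem residually_soluble (g : Γ) (hg : g ≠ 1) :
    ∃ (M : Subgroup Γ) (_ : M.Normal), g ∉ M ∧ Group.IsSolvable (Γ ⧸ M) := by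
  obtain ⟨a, ha⟩ := exists_ne g hg
  have h1 : ∃ k, g.1 a - a ∉ I k := by
    by_contra hc
    push Not at hc
    exact ha (I_sep _ hc)
  obtain ⟨k, hk⟩ := h1
  refine ⟨derivedSeries Γ (k + 2), inferInstance, fun h => ?_, solvable_quotient _⟩
  exact hk (I_anti (Nat.le_succ k) (der k h a))

end

end Pool.Agent.KS6_37.RS
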