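import Mathlib

/-!
# Operators on finitely supported functions with values in a free module of rank three
-/

set_option autoImplicit false
set_option linter.unusedSimpArgs false

namespace Pool.Agent.KS6_37.RS

noncomputable section

variable {J S : Type} [CommRing S]

/-- the operator which adds `c j` times the `k`-th coordinate to the `i`-th coordinate, minus `1` -/
def nil (i k : Fin 3) (c : J → S) : (J →₀ (Fin 3 → S)) →ₗ[S] (J →₀ (Fin 3 → S)) where
  toFun a := Finsupp.onFinset a.support (fun j => Pi.single i (c j * a j k)) (by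
    intro j hj
    by_contra h
    rw [Finsupp.notMem_support_iff] at h
    exact hj (by simp [h]))
  map_add' a b := by
    ext j l
    simp only [Finsupp.onFinset_apply, Finsupp.coe_add, Pi.add_apply, Pi.single_apply]
    split_ifs <;> ring
  map_smul' r a := by
    ext j l
    simp only [Finsupp.onFinset_apply, Finsupp.coe_smul, Pi.smul_apply, Pi.single_apply,
      smul_eq_mul, RingHom.id_apply]
    split_ifs <;> ring

lemma nil_apply (i k : Fin 3) (c : J → S) (a : J →₀ (Fin 3 → S)) (j : J) :
    nil i k c a j = Pi.single i (c j * a j k) := rfl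

/-- the elementary operator -/
def P (i k : Fin 3) (h : i ≠ k) (c : J → S) :
    (J →₀ (Fin 3 → S)) ≃ₗ[S] (J →₀ (Fin 3 → S)) :=
  LinearEquiv.ofLinearMap (LinearMap.id + nil i k c) (LinearMap.id - nil i k c)
    (by
      apply LinearMap.ext
      intro a
      ext j l
      simp only [LinearMap.comp_apply, LinearMap.add_apply, LinearMap.sub_apply, LinearMap.id_apply,
        Finsupp.coe_add, Finsupp.coe_sub, Pi.add_apply, Pi.sub_apply, nil_apply, Pi.single_apply,
        if_neg h.symm]
      split_ifs <;> ring)
    (by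
      apply LinearMap.ext
      intro a
      ext j l
      simp only [LinearMap.comp_apply, LinearMap.add_apply, LinearMap.sub_apply, LinearMap.id_apply,
        Finsupp.coe_add, Finsupp.coe_sub, Pi.add_apply, Pi.sub_apply, nil_apply, Pi.single_apply,
        if_neg h.symm]
      split_ifs <;> ring)

lemma P_apply (i k : Fin 3) (h : i ≠ k) (c : J → S) (a : J →₀ (Fin 3 → S)) :
    P i k h c a = a + nil i k c a := rfl

lemma P_apply' (i k : Fin 3) (h : i ≠ k) (c : J → S) (a : J →₀ (Fin 3 → S)) (j : J) (l : Fin 3) :
    P i k h c a j l = a j l + if l = i then c j * a j k else 0 := by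
  rw [P_apply, Finsupp.coe_add, Pi.add_apply, Pi.add_apply, nil_apply, Pi.single_apply]

lemma nil_single (i k : Fin 3) (c : J → S) (j : J) (v : Fin 3 → S) :
    nil i k c (Finsupp.single j v) = Finsupp.single j (Pi.single i (c j * v k)) := by
  classical
  ext j' l
  rw [nil_apply, Finsupp.single_apply, Finsupp.single_apply]
  split_ifs with hj
  · rw [hj]
  · simp

lemma P_single (i k : Fin 3) (h : i ≠ k) (c : J → S) (j : J) (v : Fin 3 → S) :
    P i k h c (Finsupp.single j v) =
      Finsupp.single j v + Finsupp.single j (Pi.single i (c j * v k)) := by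
  rw [P_apply, nil_single]

/-- commutator relation -/
lemma P_comm (i k l : Fin 3) (hik : i ≠ k) (hkl : k ≠ l) (hil : i ≠ l) (c d : J → S)
    (a : J →₀ (Fin 3 → S)) :
    P i k hik c (P k l hkl d a) =
      P i l hil (fun j => c j * d j) (P k l hkl d (P i k hik c a)) := by
  ext j m
  simp only [P_apply', if_true, if_neg hik, if_neg hik.symm, if_neg hkl, if_neg hkl.symm,
    if_neg hil, if_neg hil.symm]
  by_cases h1 : m = i
  · subst h1
    simp only [if_true, if_neg hik]
    ring
  · by_cases h2 : m = k
    · subst h2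
      simp only [if_true, if_neg h1]
      ring
    · simp only [if_neg h1, if_neg h2]
      ring

variable [AddCommGroup J]

/-- the shift -/
def Tn (s : J) : (J →₀ (Fin 3 → S)) ≃ₗ[S] (J →₀ (Fin 3 → S)) :=
  Finsupp.domLCongr (Equiv.addRight s)

lemma Tn_apply (s : J) (a : J →₀ (Fin 3 → S)) (j : J) : (Tn (S := S) s a) j = a (j - s) := by
  simp [Tn, Finsupp.domLCongr_apply, Finsupp.equivMapDomain_apply, sub_eq_add_neg]

lemma Tn_single (s j : J) (v : Fin 3 → S) :
    Tn (S := S) s (Finsupp.single j v) = Finsupp.single (j + s) v := by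
  simp [Tn, Finsupp.domLCongr_apply, Finsupp.equivMapDomain_single]

lemma Tn_add (s t : J) (a : J →₀ (Fin 3 → S)) :
    Tn (S := S) (s + t) a = Tn (S := S) s (Tn (S := S) t a) := by
  ext j l
  rw [Tn_apply, Tn_apply, Tn_apply, sub_sub]

lemma Tn_zero (a : J →₀ (Fin 3 → S)) : Tn (S := S) (0 : J) a = a := by
  ext j l
  rw [Tn_apply, sub_zero]

/-- conjugation of an elementary operator by a shift -/
lemma Tn_P (i k : Fin 3) (h : i ≠ k) (c : J → S) (s : J) (a : J →₀ (Fin 3 → S)) :
    P i k h c (Tn (S := S) s a) = Tn (S := S) s (P i k h (fun j => c (j + s)) a) := by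
  ext j l
  rw [P_apply', Tn_apply, Tn_apply, P_apply', sub_add_cancel]

end

end Pool.Agent.KS6_37.RS
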