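import Pool.Agent.KS6_37.RS.Ring
import Pool.Agent.KS6_37.RS.Ops

/-!
# The group, and its soluble quotients
-/

set_option autoImplicit false
set_option linter.unusedSimpArgs false

namespace Pool.Agent.KS6_37.RS

open scoped commutatorElement

noncomputable section

/-- the module -/
abbrev A : Type := ℤ →₀ (Fin 3 → R)

/-- the group of affine transformations of `A` -/
abbrev Af : Type := A ≃ᵃ[R] A

/-- linear equivalences as affine transformations -/
def la (L : A ≃ₗ[R] A) : Af := L.toAffineEquiv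

/-- translations -/
def tr (v : A) : Af := AffineEquiv.constVAdd R A v

lemma la_apply (L : A ≃ₗ[R] A) (a : A) : la L a = L a := rfl

lemma tr_apply (v a : A) : tr v a = v + a := rfl

lemma tr_add (v w : A) : tr (v + w) = tr v * tr w := by
  ext1 a
  rw [AffineEquiv.mul_def, AffineEquiv.trans_apply, tr_apply, tr_apply, tr_apply, add_assoc]

lemma la_mul_tr (L : A ≃ₗ[R] A) (v : A) : la L * tr v = tr (L v) * la L := by
  ext1 a
  rw [AffineEquiv.mul_def, AffineEquiv.mul_def, AffineEquiv.trans_apply, AffineEquiv.trans_apply,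
    tr_apply, tr_apply, la_apply, la_apply, map_add]

lemma aff (g : Af) (a b : A) : g (a + b) = g.linear a + g b := by
  have := g.map_vadd b a
  simpa [vadd_eq_add] using this

lemma mul_apply' (g h : Af) (a : A) : (g * h) a = g (h a) := rfl

lemma lin_mul (g h : Af) (a : A) : (g * h).linear a = g.linear (h.linear a) := rfl

lemma inv_apply_self (g : Af) (a : A) : g (g⁻¹ a) = a := by
  rw [← mul_apply', mul_inv_cancel]
  rfl

lemma self_inv_apply (g : Af) (a : A) : g⁻¹ (g a) = a := by
  rw [← mul_apply', inv_mul_cancel]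
  rfl

lemma lin_inv_self (g : Af) (a : A) : g.linear (g⁻¹.linear a) = a := by
  rw [← lin_mul, mul_inv_cancel]
  rfl

lemma la_linear (L : A ≃ₗ[R] A) (a : A) : (la L).linear a = L a := rfl

lemma tr_linear (v a : A) : (tr v).linear a = a := rfl

/-- `x ^ k A` -/
def I (k : ℕ) : Submodule R A := LinearMap.range (LinearMap.lsmul R A (x ^ k))

lemma mem_I {k : ℕ} {b : A} : b ∈ I k ↔ ∃ c, x ^ k • c = b := Iff.rfl

lemma I_zero (b : A) : b ∈ I 0 := mem_I.2 ⟨b, by simp⟩

lemma I_anti {k l : ℕ} (h : k ≤ l) {b : A} (hb : b ∈ I l) : b ∈ I k := by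
  obtain ⟨c, rfl⟩ := mem_I.1 hb
  refine mem_I.2 ⟨x ^ (l - k) • c, ?_⟩
  rw [smul_smul, ← pow_add]
  congr 2
  omega

lemma I_lin (L : A ≃ₗ[R] A) {k : ℕ} {b : A} (hb : b ∈ I k) : L b ∈ I k := by
  obtain ⟨c, rfl⟩ := mem_I.1 hb
  exact mem_I.2 ⟨L c, (map_smul L _ _).symm⟩

lemma I_sep (b : A) (hb : ∀ k, b ∈ I k) : b = 0 := by
  ext j l
  have : b j l = 0 := by
    apply sepX
    intro k
    obtain ⟨c, hc⟩ := mem_I.1 (hb k)
    refine ⟨c j l, ?_⟩
    rw [← hc]
    rfl
  rw [this]
  rfl

/-- affine transformations congruent to the identity modulo `x ^ k` -/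
def N (k : ℕ) : Subgroup Af where
  carrier := {g | ∀ a, g a - a ∈ I k}
  one_mem' := fun a => by
    show (1 : Af) a - a ∈ I k
    rw [show (1 : Af) a = a from rfl, sub_self]
    exact zero_mem _
  mul_mem' := fun {g h} hg hh a => by
    show (g * h) a - a ∈ I k
    have : (g * h) a - a = (g (h a) - h a) + (h a - a) := by
      rw [mul_apply']
      abel
    rw [this]
    exact add_mem (hg _) (hh _)
  inv_mem' := fun {g} hg a => by
    show g⁻¹ a - a ∈ I k
    have h1 := hg (g⁻¹ a)
    rw [inv_apply_self] at h1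
    rw [← neg_sub]
    exact neg_mem h1

/-- the linear part is the identity modulo `x` -/
def K1 : Subgroup Af where
  carrier := {g | ∀ a, g.linear a - a ∈ I 1}
  one_mem' := fun a => by
    show (1 : Af).linear a - a ∈ I 1
    rw [show (1 : Af).linear a = a from rfl, sub_self]
    exact zero_mem _
  mul_mem' := fun {g h} hg hh a => by
    show (g * h).linear a - a ∈ I 1
    have : (g * h).linear a - a = (g.linear (h.linear a) - h.linear a) + (h.linear a - a) := by
      rw [lin_mul]
      abel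
    rw [this]
    exact add_mem (hg _) (hh _)
  inv_mem' := fun {g} hg a => by
    show g⁻¹.linear a - a ∈ I 1
    have h1 := hg (g⁻¹.linear a)
    rw [lin_inv_self] at h1
    rw [← neg_sub]
    exact neg_mem h1

/-- the linear part is a shift modulo `x` -/
def K0 : Subgroup Af where
  carrier := {g | ∃ n : ℤ, ∀ a, g.linear a - Tn (S := R) n a ∈ I 1}
  one_mem' := ⟨0, fun a => by
    rw [show (1 : Af).linear a = a from rfl, Tn_zero, sub_self]
    exact zero_mem _⟩
  mul_mem' := by
    rintro g h ⟨n, hg⟩ ⟨m, hh⟩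
    refine ⟨n + m, fun a => ?_⟩
    have : (g * h).linear a - Tn (S := R) (n + m) a = g.linear (h.linear a - Tn (S := R) m a) +
        (g.linear (Tn (S := R) m a) - Tn (S := R) n (Tn (S := R) m a)) := by
      rw [lin_mul, Tn_add, map_sub]
      abel
    rw [this]
    exact add_mem (I_lin _ (hh _)) (hg _)
  inv_mem' := by
    rintro g ⟨n, hg⟩
    refine ⟨-n, fun a => ?_⟩
    have h1 := I_lin (Tn (S := R) (-n)) (hg (g⁻¹.linear a))
    rw [lin_inv_self, map_sub, ← Tn_add, neg_add_cancel, Tn_zero] at h1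
    rw [← neg_sub]
    exact neg_mem h1

lemma comm_apply (g h : Af) (a : A) :
    ⁅g, h⁆ a - a = g (h (g⁻¹ (h⁻¹ a))) - h (g (g⁻¹ (h⁻¹ a))) := by
  rw [inv_apply_self, inv_apply_self, commutatorElement_def]
  rfl

lemma comm_lin (g h : Af) (a : A) : ⁅g, h⁆.linear a - a =
    g.linear (h.linear (g⁻¹.linear (h⁻¹.linear a))) -
      h.linear (g.linear (g⁻¹.linear (h⁻¹.linear a))) := by
  rw [lin_inv_self, lin_inv_self, commutatorElement_def]
  rfl

lemma K0_comm (g h : Af) (hg : g ∈ K0) (hh : h ∈ K0) : ⁅g, h⁆ ∈ K1 := by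
  intro a
  rw [comm_lin]
  generalize g⁻¹.linear (h⁻¹.linear a) = b
  have h1 := K0.mul_mem hg hh
  obtain ⟨n, hg⟩ := hg
  obtain ⟨m, hh⟩ := hh
  have e1 : g.linear (h.linear b) - Tn (S := R) (n + m) b ∈ I 1 := by
    have : g.linear (h.linear b) - Tn (S := R) (n + m) b = g.linear (h.linear b - Tn (S := R) m b) +
        (g.linear (Tn (S := R) m b) - Tn (S := R) n (Tn (S := R) m b)) := by
      rw [Tn_add, map_sub]
      abel
    rw [this]
    exact add_mem (I_lin _ (hh _)) (hg _)
  have e2 : h.linear (g.linear b) - Tn (S := R) (n + m) b ∈ I 1 := by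
    have : h.linear (g.linear b) - Tn (S := R) (n + m) b = h.linear (g.linear b - Tn (S := R) n b) +
        (h.linear (Tn (S := R) n b) - Tn (S := R) m (Tn (S := R) n b)) := by
      rw [add_comm n m, Tn_add, map_sub]
      abel
    rw [this]
    exact add_mem (I_lin _ (hg _)) (hh _)
  have := sub_mem e1 e2
  rwa [sub_sub_sub_cancel_right] at this

lemma K1_comm (g h : Af) (hg : g ∈ K1) (hh : h ∈ K1) : ⁅g, h⁆ ∈ N 1 := by
  intro a
  rw [comm_apply]
  generalize g⁻¹ (h⁻¹ a) = b
  have e1 : ∀ g h : Af, g ∈ K1 → h ∈ K1 → g (h b) - (b + g 0 + h 0) ∈ I 1 := by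
    intro g h hg hh
    have h1 : h b = h.linear b + h 0 := by
      have := aff h b 0
      rwa [add_zero] at this
    have h2 : g (h b) = g.linear (h b) + g 0 := by
      have := aff g (h b) 0
      rwa [add_zero] at this
    have h3 : g (h b) - (b + g 0 + h 0) = (g.linear (h b) - h b) + (h.linear b - b) := by
      rw [h2, show h.linear b = h b - h 0 from eq_sub_iff_add_eq.2 h1.symm]
      abel
    rw [h3]
    exact add_mem (hg _) (hh _)
  have h1 := sub_mem (e1 g h hg hh) (e1 h g hh hg)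
  have h2 : g (h b) - (b + g 0 + h 0) - (h (g b) - (b + h 0 + g 0)) = g (h b) - h (g b) := by
    abel
  rwa [h2] at h1

lemma N_lin {k : ℕ} {g : Af} (hg : g ∈ N k) (c : A) : g.linear c - c ∈ I k := by
  have h2 : g c = g.linear c + g 0 := by
    have := aff g c 0
    rwa [add_zero] at this
  have h3 : g.linear c - c = (g c - c) - (g 0 - 0) := by
    rw [h2]
    abel
  rw [h3]
  exact sub_mem (hg _) (hg _)

lemma N_comm {i j : ℕ} (g h : Af) (hg : g ∈ N i) (hh : h ∈ N j) : ⁅g, h⁆ ∈ N (i + j) := by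
  intro a
  rw [comm_apply]
  generalize g⁻¹ (h⁻¹ a) = b
  have e1 : ∀ (i j : ℕ) (g h : Af), g ∈ N i → h ∈ N j →
      g (h b) - g b - (h b - b) ∈ I (i + j) := by
    intro i j g h hg hh
    have h1 : g (h b) = g.linear (h b - b) + g b := by
      rw [← aff, sub_add_cancel]
    rw [h1, add_sub_cancel_right]
    obtain ⟨c, hc⟩ := mem_I.1 (hh b)
    obtain ⟨d, hd⟩ := mem_I.1 (N_lin hg c)
    refine mem_I.2 ⟨d, ?_⟩
    rw [← hc, map_smul, ← smul_sub, ← hd, smul_smul, ← pow_add, add_comm]
  have h1 := e1 i j g h hg hh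
  have h2 := e1 j i h g hh hg
  rw [add_comm j i] at h2
  have h3 := sub_mem h1 h2
  have h4 : g (h b) - g b - (h b - b) - (h (g b) - h b - (g b - b)) = g (h b) - h (g b) := by
    abel
  rwa [h4] at h3

end

end Pool.Agent.KS6_37.RS
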