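import Pool.Agent.KS6_37.RS.Gam

/-!
# A nontrivial element which is trivial in every finite soluble quotient
-/

set_option autoImplicit false
set_option linter.unusedSimpArgs false

namespace Pool.Agent.KS6_37.RS

open scoped commutatorElement

noncomputable section

/-- the vector with entry `r` at `0`, in the coordinate `i` -/
def sv (i : Fin 3) (r : R) : A := Finsupp.single 0 (Pi.single i r)

lemma sv_add (i : Fin 3) (r s : R) : sv i (r + s) = sv i r + sv i s := by
  rw [sv, Pi.single_add, Finsupp.single_add]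
  rfl

lemma sv_nsmul (i : Fin 3) (n : ℕ) (r : R) : sv i ((n : R) * r) = n • sv i r := by
  induction n with
  | zero => simp [sv]
  | succ n ih => rw [succ_nsmul, ← ih, ← sv_add]; congr 1; push_cast; ring

lemma tr_nsmul (n : ℕ) (v : A) : tr (n • v) = tr v ^ n := by
  induction n with
  | zero =>
    ext1 a
    rw [tr_apply, zero_smul, zero_add]
    rfl
  | succ n ih => rw [succ_nsmul, tr_add, ih, pow_succ]

lemma P_sv (i k : Fin 3) (h : i ≠ k) (c : ℤ → R) (r : R) :
    P i k h c (sv k r) = sv i (c 0 * r) + sv k r := by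
  rw [sv, P_single, Pi.single_eq_same, add_comm]
  rfl

lemma comm_tr (i k : Fin 3) (h : i ≠ k) (c : ℤ → R) (r : R) :
    ⁅la (P i k h c), tr (sv k r)⁆ = tr (sv i (c 0 * r)) := by
  rw [commutatorElement_def, la_mul_tr, mul_inv_cancel_right, P_sv, tr_add, mul_inv_cancel_right]

lemma la_Tn_add (s t : ℤ) : la (Tn (S := R) (s + t)) = la (Tn (S := R) s) * la (Tn (S := R) t) := by
  ext1 a
  rw [mul_apply', la_apply, la_apply, la_apply, Tn_add]

lemma la_Tn_zero : la (Tn (S := R) (0 : ℤ)) = 1 := by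
  ext1 a
  rw [la_apply, Tn_zero]
  rfl

lemma Tn_mem (s : ℤ) : la (Tn (S := R) s) ∈ Γ := by
  have h1 : ∀ n : ℕ, la (Tn (S := R) (n : ℤ)) ∈ Γ := by
    intro n
    induction n with
    | zero =>
      rw [Nat.cast_zero, la_Tn_zero]
      exact one_mem _
    | succ n ih =>
      rw [Nat.cast_succ, la_Tn_add]
      exact mul_mem ih Tn_gen
  have h2 : ∀ n : ℕ, la (Tn (S := R) (-(n : ℤ))) ∈ Γ := by
    intro n
    have h3 : la (Tn (S := R) (-(n : ℤ))) = (la (Tn (S := R) (n : ℤ)))⁻¹ := by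
      rw [eq_inv_iff_mul_eq_one, ← la_Tn_add, neg_add_cancel, la_Tn_zero]
    rw [h3]
    exact inv_mem (h1 n)
  rcases Int.eq_nat_or_neg s with ⟨n, rfl | rfl⟩
  · exact h1 n
  · exact h2 n

lemma P_shift (i k : Fin 3) (h : i ≠ k) (c : ℤ → R) (hc : la (P i k h c) ∈ Γ) (s : ℤ) :
    la (P i k h (fun j => c (j + s))) ∈ Γ := by
  have h1 : la (P i k h (fun j => c (j + s))) =
      (la (Tn (S := R) s))⁻¹ * (la (P i k h c) * la (Tn (S := R) s)) := by
    rw [eq_inv_mul_iff_mul_eq]
    ext1 a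
    rw [mul_apply', mul_apply', la_apply, la_apply, la_apply, la_apply, Tn_P]
  rw [h1]
  exact mul_mem (inv_mem (Tn_mem s)) (mul_mem hc (Tn_mem s))

lemma comm_P (i k l : Fin 3) (hik : i ≠ k) (hkl : k ≠ l) (hil : i ≠ l) (c d : ℤ → R) :
    ⁅la (P i k hik c), la (P k l hkl d)⁆ = la (P i l hil (fun j => c j * d j)) := by
  rw [commutatorElement_def, mul_inv_eq_iff_eq_mul, mul_inv_eq_iff_eq_mul]
  ext1 a
  rw [mul_apply', mul_apply', mul_apply', la_apply, la_apply, la_apply, la_apply, la_apply]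
  exact P_comm i k l hik hkl hil c d a

lemma third (i k : Fin 3) (_ : i ≠ k) : ∃ l : Fin 3, i ≠ l ∧ l ≠ k := by
  revert i k
  decide

lemma other (i : Fin 3) : ∃ l : Fin 3, i ≠ l := by
  revert i
  decide

lemma comm_mem {a b : Af} (ha : a ∈ Γ) (hb : b ∈ Γ) : ⁅a, b⁆ ∈ Γ := by
  rw [commutatorElement_def]
  exact mul_mem (mul_mem (mul_mem ha hb) (inv_mem ha)) (inv_mem hb)

lemma P_pow_mem (m : ℕ) : ∀ (i k : Fin 3) (h : i ≠ k), la (P i k h (fun _ => x ^ (m + 1))) ∈ Γ := by
  induction m with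
  | zero =>
    intro i k h
    have := P_gen i k h
    simpa only [zero_add, pow_one] using this
  | succ m ih =>
    intro i k h
    obtain ⟨l, hil, hlk⟩ := third i k h
    have h1 := comm_mem (P_gen i l hil) (ih l k hlk)
    rw [comm_P i l k hil hlk h] at h1
    have h2 : (fun j : ℤ => (fun _ => x) j * (fun _ : ℤ => x ^ (m + 1)) j) =
        (fun _ => x ^ (m + 1 + 1)) := by
      funext j
      show x * x ^ (m + 1) = _
      ring
    rwa [h2] at h1

lemma P_pow_der (l : ℕ) : ∀ (m : ℕ), 2 ^ l ≤ m → ∀ (i k : Fin 3) (h : i ≠ k),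
    ∃ g : Γ, g.1 = la (P i k h (fun _ => x ^ m)) ∧ g ∈ derivedSeries Γ l := by
  induction l with
  | zero =>
    intro m hm i k h
    rw [pow_zero] at hm
    obtain ⟨m, rfl⟩ : ∃ m', m = m' + 1 := ⟨m - 1, by omega⟩
    exact ⟨⟨_, P_pow_mem m i k h⟩, rfl, by simp⟩
  | succ l ih =>
    intro m hm i k h
    obtain ⟨q, hiq, hqk⟩ := third i k h
    rw [pow_succ] at hm
    obtain ⟨g, hg1, hg2⟩ := ih (2 ^ l) le_rfl i q hiq
    obtain ⟨g', hg1', hg2'⟩ := ih (m - 2 ^ l) (by omega) q k hqk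
    refine ⟨⁅g, g'⁆, ?_, ?_⟩
    · show ⁅g.1, g'.1⁆ = _
      rw [hg1, hg1', comm_P i q k hiq hqk h]
      congr 2
      funext j
      rw [← pow_add]
      congr 1
      omega
    · rw [derivedSeries_succ]
      exact Subgroup.commutator_mem_commutator hg2 hg2'

/-- the elements `r` such that the translations by `r` in each coordinate at `0` are in `Γ` -/
def T : AddSubgroup R where
  carrier := {r | ∀ i, tr (sv i r) ∈ Γ}
  zero_mem' := fun i => by
    have h1 : tr (sv i 0) = 1 := by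
      ext1 a
      rw [tr_apply]
      simp [sv]
    rw [h1]
    exact one_mem _
  add_mem' := fun {r s} hr hs i => by
    rw [sv_add, tr_add]
    exact mul_mem (hr i) (hs i)
  neg_mem' := fun {r} hr i => by
    have h1 : tr (sv i (-r)) = (tr (sv i r))⁻¹ := by
      rw [eq_inv_iff_mul_eq_one, ← tr_add, ← sv_add, neg_add_cancel]
      ext1 a
      rw [tr_apply]
      simp [sv]
    rw [h1]
    exact inv_mem (hr i)

lemma step (i k : Fin 3) (h : i ≠ k) (r : R) (hr : tr (sv k r) ∈ Γ) : tr (sv i (x * r)) ∈ Γ := by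
  have h1 := comm_mem (P_gen i k h) hr
  rwa [comm_tr] at h1

lemma T_x (r : R) (hr : r ∈ T) : x * r ∈ T := by
  intro i
  obtain ⟨k, hk⟩ := other i
  exact step i k hk r (hr k)

lemma T_one : x ^ 2 ∈ T := by
  have h1 : tr (sv 1 (x * 1)) ∈ Γ := step 1 0 (by decide) 1 tr_gen
  have h2 : tr (sv 2 (x * 1)) ∈ Γ := step 2 0 (by decide) 1 tr_gen
  have h0 : x ^ 2 = x * (x * 1) := by ring
  rw [h0]
  intro i
  fin_cases i
  · exact step 0 1 (by decide) _ h1
  · exact step 1 2 (by decide) _ h2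
  · exact step 2 1 (by decide) _ h1

lemma T_U (d : ℕ) (hd : 0 < d) (r : R) (hr : r ∈ T) : x ^ 2 * U d * r ∈ T := by
  have h1 : ∀ r ∈ T, tr (sv 1 (x * U d * r)) ∈ Γ := by
    intro r hr
    have h2 := comm_mem (P_shift 1 0 (by decide) (fun j => x * u j) Pu_gen (2 ^ (d - 1))) (hr 0)
    rw [comm_tr] at h2
    have h3 : x * u (0 + 2 ^ (d - 1)) = x * U d := by
      rw [zero_add, u_pow d hd]
    rwa [h3] at h2
  intro i
  fin_cases i
  · have h2 := step 0 1 (by decide) _ (h1 r hr)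
    have h3 : x * (x * U d * r) = x ^ 2 * U d * r := by ring
    rw [h3] at h2
    exact h2
  · have h2 := h1 (x * r) (T_x r hr)
    have h3 : x * U d * (x * r) = x ^ 2 * U d * r := by ring
    rw [h3] at h2
    exact h2
  · have h2 := step 2 1 (by decide) _ (h1 r hr)
    have h3 : x * (x * U d * r) = x ^ 2 * U d * r := by ring
    rw [h3] at h2
    exact h2

lemma T_pow (m : ℕ) (r : R) (hr : r ∈ T) : x ^ m * r ∈ T := by
  induction m with
  | zero => rwa [pow_zero, one_mul]
  | succ m ih =>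
    rw [pow_succ', mul_assoc]
    exact T_x _ ih

lemma T_y (m : ℕ) (r : R) (hr : r ∈ T) : (1 - x) ^ m * r ∈ T := by
  induction m with
  | zero => rwa [pow_zero, one_mul]
  | succ m ih =>
    have h1 : (1 - x) ^ (m + 1) * r = (1 - x) ^ m * r - x * ((1 - x) ^ m * r) := by ring
    rw [h1]
    exact sub_mem ih (T_x _ ih)

lemma T_h (m : ℕ) (r : R) (hr : r ∈ T) : (∑ i ∈ Finset.range m, (1 - x) ^ i) * r ∈ T := by
  rw [Finset.sum_mul]
  exact sum_mem fun i _ => T_y i r hr

lemma kill (M : Subgroup Γ) [hM : M.Normal] [Finite (Γ ⧸ M)] (hs : Group.IsSolvable (Γ ⧸ M)) :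
    ∀ r ∈ T, ∀ (i : Fin 3) (g : Γ), g.1 = tr (sv i (x ^ 2 * r)) → g ∈ M := by
  obtain ⟨l, hl⟩ := hs.solvable
  have h1 : derivedSeries Γ l ≤ M := by
    intro g hg
    have h2 := map_derivedSeries_le_derivedSeries (QuotientGroup.mk' M) l
      (Subgroup.mem_map_of_mem _ hg)
    rw [hl, Subgroup.mem_bot] at h2
    exact (QuotientGroup.eq_one_iff g).1 h2
  have h3 : ∀ k m : ℕ, 2 ≤ m → 2 ^ l ≤ m + k → ∀ r ∈ T, ∀ (i : Fin 3) (g : Γ),
      g.1 = tr (sv i (x ^ m * r)) → g ∈ M := by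
    intro k
    induction k with
    | zero =>
      intro m _ hm r hr i g hg
      obtain ⟨q, hq⟩ := other i
      obtain ⟨e, he1, he2⟩ := P_pow_der l m hm i q hq
      have h4 : g = e * ((⟨_, hr q⟩ : Γ) * e⁻¹ * (⟨_, hr q⟩ : Γ)⁻¹) := by
        apply Subtype.ext
        rw [hg, ← comm_tr i q hq (fun _ => x ^ m) r, ← he1, commutatorElement_def]
        simp only [Subgroup.coe_mul, Subgroup.coe_inv, mul_assoc]
      rw [h4]
      exact mul_mem (h1 he2) (hM.conj_mem _ (inv_mem (h1 he2)) _)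
    | succ k ih =>
      intro m hm2 hm r hr i g hg
      set c := Nat.card (Γ ⧸ M) with hc
      have hc0 : 0 < c := Nat.card_pos
      have e1 := one_eq c hc0
      have e2 : x ^ m * r = (c : R) * (x ^ m * U c * r) +
          x ^ (m + 1) * ((∑ i ∈ Finset.range (2 * c), (1 - x) ^ i) * r) := by
        calc x ^ m * r = x ^ m * r * 1 := (mul_one _).symm
          _ = x ^ m * r * ((c : R) * U c + x * ∑ i ∈ Finset.range (2 * c), (1 - x) ^ i) := by
            rw [← e1]
          _ = _ := by ring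
      have t1 : x ^ m * U c * r ∈ T := by
        have h4 := T_U c hc0 _ (T_pow (m - 2) r hr)
        have h5 : x ^ 2 * U c * (x ^ (m - 2) * r) = x ^ m * U c * r := by
          have h6 : x ^ m = x ^ 2 * x ^ (m - 2) := by
            rw [← pow_add]
            congr 1
            omega
          rw [h6]
          ring
        rwa [h5] at h4
      have t2 := T_h (2 * c) r hr
      let a : Γ := ⟨_, t1 i⟩
      let b : Γ := ⟨_, T_pow (m + 1) _ t2 i⟩
      have h4 : g = a ^ c * b := by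
        apply Subtype.ext
        rw [hg, e2, sv_add, tr_add, sv_nsmul, tr_nsmul]
        rfl
      have h5 : a ^ c ∈ M := by
        rw [← QuotientGroup.eq_one_iff, QuotientGroup.mk_pow]
        exact pow_card_eq_one'
      have h6 : b ∈ M := ih (m + 1) (by omega) (by omega) _ t2 i b rfl
      rw [h4]
      exact mul_mem h5 h6
  exact h3 (2 ^ l) 2 le_rfl (by omega)

/-- a nontrivial element which is trivial in every finite soluble quotient -/
theorem exists_kill : ∃ g : Γ, g ≠ 1 ∧ ∀ (M : Subgroup Γ) (_ : M.Normal), Finite (Γ ⧸ M) →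
    Group.IsSolvable (Γ ⧸ M) → g ∈ M := by
  refine ⟨⟨_, T_pow 2 _ T_one 0⟩, fun h => ?_, fun M _ _ hs => kill M hs _ T_one 0 _ rfl⟩
  have h1 : (tr (sv 0 (x ^ 2 * x ^ 2))) (0 : A) = (0 : A) := by
    have := congrArg (fun g : Γ => g.1 (0 : A)) h
    exact this
  rw [tr_apply, add_zero, sv, Finsupp.single_eq_zero, Pi.single_eq_zero_iff] at h1
  exact pow_ne_zero 4 x_ne (by rw [← h1]; ring)

end

end Pool.Agent.KS6_37.RS
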