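import Mathlib

/-!
# A ring of rational polynomials

`R` is the ring of the rational polynomials `f` such that `f(p)` is a `p`-adic integer for every
prime `p`. The polynomials `U d = X ^ (2 d) / d` are in `R`.
-/

set_option autoImplicit false

namespace Pool.Agent.KS6_37.RS

open Polynomial

noncomputable section

instance (p : Nat.Primes) : Fact (p : ℕ).Prime := ⟨p.2⟩

/-- evaluation at `p` in the `p`-adic numbers -/
def ev (p : Nat.Primes) : ℚ[X] →+* ℚ_[p] := (aeval ((p : ℕ) : ℚ_[p])).toRingHom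

/-- the rational polynomials with `f(p) ∈ ℤ_p` for all primes `p` -/
def R : Subring ℚ[X] := ⨅ p : Nat.Primes, (PadicInt.subring p).comap (ev p)

lemma mem_R {f : ℚ[X]} : f ∈ R ↔ ∀ p, ‖ev p f‖ ≤ 1 := by
  simp [R, Subring.mem_iInf, PadicInt.mem_subring_iff]

/-- the variable -/
def y : R := ⟨X, mem_R.2 fun p => by
  have := Padic.norm_int_le_one (p := p) ((p : ℕ) : ℤ)
  simpa [ev] using this⟩

/-- the element `1 - X` -/
def x : R := 1 - y

lemma norm_aux (p : Nat.Primes) (d : ℕ) :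
    ‖((d : ℕ) : ℚ_[p])⁻¹ * (((p : ℕ) : ℚ_[p])) ^ d‖ ≤ 1 := by
  rcases Nat.eq_zero_or_pos d with rfl | hd
  · simp
  obtain ⟨v, m, hm, hdm⟩ := Nat.exists_eq_pow_mul_and_not_dvd hd.ne' (p : ℕ) p.2.ne_one
  have hv : v ≤ d := by
    have h1 : v < (p : ℕ) ^ v := Nat.lt_pow_self p.2.one_lt
    have h2 : (p : ℕ) ^ v ≤ d := by
      rw [hdm]
      refine Nat.le_mul_of_pos_right _ (Nat.pos_of_ne_zero ?_)
      rintro rfl
      exact hm (dvd_zero _)
    omega
  have hp0 : (((p : ℕ) : ℚ_[p])) ≠ 0 := by exact_mod_cast p.2.ne_zero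
  have hm0 : m ≠ 0 := by
    rintro rfl
    exact hm (dvd_zero _)
  have hm0' : (m : ℚ_[p]) ≠ 0 := by exact_mod_cast hm0
  have h3 : ((d : ℕ) : ℚ_[p])⁻¹ * (((p : ℕ) : ℚ_[p])) ^ d
      = ((m : ℕ) : ℚ_[p])⁻¹ * (((p : ℕ) : ℚ_[p])) ^ (d - v) := by
    have h4 : (((p : ℕ) : ℚ_[p])) ^ d = (((p : ℕ) : ℚ_[p])) ^ v * (((p : ℕ) : ℚ_[p])) ^ (d - v) := by
      rw [← pow_add]
      congr 1
      omega
    have h5 : ((d : ℕ) : ℚ_[p]) = (((p : ℕ) : ℚ_[p])) ^ v * (m : ℚ_[p]) := by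
      rw [hdm]
      push_cast
      rfl
    rw [h4, h5]
    field_simp
  have h6 : ‖((m : ℕ) : ℚ_[p])‖ = 1 := by
    rw [Padic.norm_natCast_eq_one_iff]
    exact (Nat.Prime.coprime_iff_not_dvd p.2).2 hm
  have h7 : ‖(((p : ℕ) : ℚ_[p]))‖ ≤ 1 := by
    have := Padic.norm_int_le_one (p := p) ((p : ℕ) : ℤ)
    simpa using this
  rw [h3, norm_mul, norm_inv, h6, norm_pow]
  simpa using pow_le_one₀ (norm_nonneg _) h7

lemma ev_U (p : Nat.Primes) (d : ℕ) : ev p (C ((d : ℕ) : ℚ)⁻¹ * X ^ (2 * d)) =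
    (((d : ℕ) : ℚ_[p])⁻¹ * (((p : ℕ) : ℚ_[p])) ^ d) * (((p : ℕ) : ℚ_[p])) ^ d := by
  simp only [ev, AlgHom.toRingHom_eq_coe, RingHom.coe_coe, map_mul, aeval_C, map_inv₀, map_natCast,
    map_pow, aeval_X]
  ring

/-- `X ^ (2 d) / d` -/
def U (d : ℕ) : R := ⟨C ((d : ℕ) : ℚ)⁻¹ * X ^ (2 * d), mem_R.2 fun p => by
  have h7 : ‖(((p : ℕ) : ℚ_[p]))‖ ≤ 1 := by
    have := Padic.norm_int_le_one (p := p) ((p : ℕ) : ℤ)
    simpa using this
  rw [ev_U, norm_mul, norm_pow]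
  exact mul_le_one₀ (norm_aux p d) (by positivity) (pow_le_one₀ (norm_nonneg _) h7)⟩

/-- `1 = d U_d + x h` with an integral polynomial `h` in `1 - x` -/
lemma one_eq (d : ℕ) (hd : 0 < d) :
    (1 : R) = (d : R) * U d + x * ∑ i ∈ Finset.range (2 * d), (1 - x) ^ i := by
  have h1 : (d : R) * U d = y ^ (2 * d) := by
    apply Subtype.ext
    have h : ((d : ℕ) : ℚ) ≠ 0 := by exact_mod_cast hd.ne'
    show ((d : R) : ℚ[X]) * (C ((d : ℕ) : ℚ)⁻¹ * X ^ (2 * d)) = ((y : ℚ[X])) ^ (2 * d)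
    have h2 : ((d : R) : ℚ[X]) = C ((d : ℕ) : ℚ) := by simp
    rw [h2, ← mul_assoc, ← C_mul, mul_inv_cancel₀ h]
    simp [y]
  have h2 : (1 : R) - x = y := by simp [x]
  rw [h1, h2]
  have h3 := mul_neg_geom_sum y (2 * d)
  rw [show x = 1 - y from rfl, h3]
  ring

/-- evaluation at `p` -/
def evZ (p : Nat.Primes) : R →+* ℤ_[p] where
  toFun f := ⟨ev p f, mem_R.1 f.2 p⟩
  map_one' := Subtype.ext (by simp)
  map_mul' f g := Subtype.ext (map_mul (ev p) f.1 g.1)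
  map_zero' := Subtype.ext (by simp)
  map_add' f g := Subtype.ext (map_add (ev p) f.1 g.1)

/-- evaluation at `p` modulo `p ^ n` -/
def phi (p : Nat.Primes) (n : ℕ) : R →+* ZMod ((p : ℕ) ^ n) := (PadicInt.toZModPow n).comp (evZ p)

lemma phi_U (p : Nat.Primes) (n d : ℕ) (h : n ≤ d) : phi p n (U d) = 0 := by
  have h1 : evZ p (U d) = (show ℤ_[p] from ⟨_, norm_aux p d⟩) * (((p : ℕ) : ℤ_[p])) ^ d := by
    apply Subtype.ext
    show ev p (C ((d : ℕ) : ℚ)⁻¹ * X ^ (2 * d)) = _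
    rw [ev_U]
    push_cast
    rfl
  show PadicInt.toZModPow n (evZ p (U d)) = 0
  rw [h1, map_mul, map_pow, map_natCast]
  have h2 : (((p : ℕ) : ZMod ((p : ℕ) ^ n))) ^ d = 0 := by
    have h3 : (((p : ℕ) : ZMod ((p : ℕ) ^ n))) ^ n = 0 := by
      have := ZMod.natCast_self ((p : ℕ) ^ n)
      push_cast at this
      exact this
    rw [← Nat.sub_add_cancel h, pow_add, h3, mul_zero]
  rw [h2, mul_zero]

lemma sep (f : R) (hf : f ≠ 0) : ∃ (p : Nat.Primes) (n : ℕ), phi p n f ≠ 0 := by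
  have hf' : f.1 ≠ 0 := fun h => hf (Subtype.ext h)
  have : ∃ p : Nat.Primes, f.1.eval ((p : ℕ) : ℚ) ≠ 0 := by
    by_contra hc
    push Not at hc
    apply hf'
    apply eq_zero_of_infinite_isRoot
    refine Set.infinite_of_injective_forall_mem
      (f := fun p : Nat.Primes => ((p : ℕ) : ℚ)) ?_ hc
    intro p q h
    apply Subtype.ext
    simpa using h
  obtain ⟨p, hp⟩ := this
  refine ⟨p, ?_⟩
  by_contra hc
  push Not at hc
  have h1 : evZ p f = 0 := PadicInt.ext_of_toZModPow.1 fun n => by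
    rw [map_zero]
    exact hc n
  have h2 : ev p f = 0 := congrArg Subtype.val h1
  have h3 : ev p f = algebraMap ℚ ℚ_[p] (f.1.eval ((p : ℕ) : ℚ)) := by
    rw [← aeval_algebraMap_apply_eq_algebraMap_eval]
    simp [ev]
  rw [h3] at h2
  exact hp ((map_eq_zero_iff _ (algebraMap ℚ ℚ_[p]).injective).1 h2)

lemma sepX (f : R) (hf : ∀ k : ℕ, x ^ k ∣ f) : f = 0 := by
  by_contra h0
  have h0' : f.1 ≠ 0 := fun h => h0 (Subtype.ext h)
  obtain ⟨g, hg⟩ := hf (f.1.natDegree + 1)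
  have h1 : f.1 = (1 - X) ^ (f.1.natDegree + 1) * g.1 := by
    have := congrArg Subtype.val hg
    simpa [x, y] using this
  have hg0 : g.1 ≠ 0 := by
    intro h
    rw [h, mul_zero] at h1
    exact h0' h1
  have hx0 : (1 - X : ℚ[X]) ≠ 0 := by
    intro h
    have := congrArg (fun q => eval 0 q) h
    simp at this
  have h2 : (1 - X : ℚ[X]).natDegree = 1 := by
    have : (1 - X : ℚ[X]) = -(X - C 1) := by simp
    rw [this, natDegree_neg, natDegree_X_sub_C]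
  have h3 := congrArg natDegree h1
  rw [natDegree_mul (pow_ne_zero _ hx0) hg0, natDegree_pow, h2] at h3
  omega

lemma x_ne : x ≠ 0 := by
  intro h
  have := congrArg (fun q : R => eval 0 (q : ℚ[X])) h
  simp [x, y] at this

instance : IsDomain R := inferInstance

end

end Pool.Agent.KS6_37.RS
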